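import Mathlib

open Finset

namespace Pool.Agent.Results.MP_b1e97f_co.SchrijverSquare

/-!
# The Schrijver number of the strong square of the acute-angle hypercube graph

We prove that the Schrijver number of `G_n ⊠ G_n` is at least `n ^ (log n / 8192)` for every
`n ≥ 1`, hence it is not bounded by any fixed power of `n`.

Outline.  If the Schrijver number were smaller than `M`, separation of a compact convex set from
the nonpositive orthant gives nonnegative weights `a` on pairs of characters, `a (∅, ∅) ≥ 1`, total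
mass `M`, whose character sum `f` is nonpositive at all pairs `(z, z')` with `∑ z ≤ 0` or
`∑ z' ≤ 0`.  Averaging `f` over product measures with means `s`, `t` gives the polynomial
`F (s, t) = ∑ a (S, T) s ^ |S| t ^ |T|`, which is at most `M (1 - s ^ 2) ^ (n / 2)` for `s ≤ 0` and
at most `M (1 - t ^ 2) ^ (n / 2)` for `t ≤ 0`.  Choosing `(i, j)` to maximise a suitably tilted
coefficient of `F`, one finds `s₀, t₀` in `(0, 1]` at which a single monomial dominates `F`; one of
the three sign patterns `(-, +), (+, -), (-, -)` keeps that monomial positive, a contradiction.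
-/

/-- The graph `G_n` on the sign vectors `{1, -1}^n`: distinct `x`, `y` are adjacent iff their inner
product is positive. -/
def acuteGraph (n : ℕ) : SimpleGraph (Fin n → ℤˣ) where
  Adj x y := x ≠ y ∧ 0 < ∑ i, (x i : ℤ) * (y i : ℤ)
  symm := ⟨fun x y h => ⟨h.1.symm, by simpa only [mul_comm] using h.2⟩⟩
  loopless := ⟨fun x h => h.1 rfl⟩

/-- The strong product of two graphs: distinct pairs are adjacent iff in each coordinate the
entries are equal or adjacent. -/
def strongProduct {V W : Type} (G : SimpleGraph V) (H : SimpleGraph W) :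
    SimpleGraph (V × W) where
  Adj p q := p ≠ q ∧ (p.1 = q.1 ∨ G.Adj p.1 q.1) ∧ (p.2 = q.2 ∨ H.Adj p.2 q.2)
  symm := ⟨fun _ _ h => ⟨h.1.symm, h.2.1.imp Eq.symm (fun a => a.symm),
    h.2.2.imp Eq.symm (fun a => a.symm)⟩⟩
  loopless := ⟨fun _ h => h.1 rfl⟩

/-- The Schrijver number of a finite graph: the supremum (a maximum) of the sum of all entries of
`X` over the real positive semidefinite matrices `X` with nonnegative entries, trace one, and
`X u v = 0` for every edge `uv`. -/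
noncomputable def schrijverNumber {V : Type} [Fintype V] (G : SimpleGraph V) : ℝ :=
  sSup {s : ℝ | ∃ X : Matrix V V ℝ, X.PosSemidef ∧ (∀ u v, 0 ≤ X u v) ∧ X.trace = 1 ∧
    (∀ u v, G.Adj u v → X u v = 0) ∧ s = ∑ u, ∑ v, X u v}

lemma offdiag_le {V : Type} [Fintype V] (X : Matrix V V ℝ) (hX : X.PosSemidef) (u v : V) :
    X u v ≤ (X u u + X v v) / 2 := by
  classical
  have h := hX.dotProduct_mulVec_nonneg (Pi.single u 1 - Pi.single v 1)
  have hs : X v u = X u v := by
    have := hX.1.apply u v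
    simpa using this
  simp only [star_trivial, Matrix.mulVec_sub, dotProduct_sub, sub_dotProduct,
    Matrix.mulVec_single_one, single_one_dotProduct, Matrix.col_apply] at h
  linarith

lemma schrijver_bdd {V : Type} [Fintype V] (G : SimpleGraph V) :
    BddAbove {s : ℝ | ∃ X : Matrix V V ℝ, X.PosSemidef ∧ (∀ u v, 0 ≤ X u v) ∧ X.trace = 1 ∧
    (∀ u v, G.Adj u v → X u v = 0) ∧ s = ∑ u, ∑ v, X u v} := by
  refine ⟨Fintype.card V, ?_⟩
  rintro s ⟨X, hX, -, htr, -, rfl⟩
  calc ∑ u, ∑ v, X u v ≤ ∑ u, ∑ v, (X u u + X v v) / 2 :=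
        Finset.sum_le_sum fun u _ => Finset.sum_le_sum fun v _ => offdiag_le X hX u v
    _ = Fintype.card V * X.trace := by
        simp only [Matrix.trace, Matrix.diag, add_div, Finset.sum_add_distrib, Finset.sum_const,
          Finset.card_univ, nsmul_eq_mul, ← Finset.sum_div]
        rw [← Finset.mul_sum, ← Finset.sum_div]
        ring
    _ = Fintype.card V := by rw [htr, mul_one]

lemma posSemidef_of_fourier {Γ I : Type} [CommGroup Γ] [Fintype Γ] [DecidableEq Γ] [Fintype I]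
    (χ : I → Γ → ℝ) (N : ℝ) (hN : 0 < N) (hmul : ∀ i x y, χ i (x * y) = χ i x * χ i y)
    (hsum : ∀ x, ∑ i, χ i x = if x = 1 then N else 0) (hsq : ∀ x : Γ, x * x = 1)
    (ψ : Γ → ℝ) (hψ : ∀ i, 0 ≤ ∑ r, ψ r * χ i r) :
    (Matrix.of fun p q => ψ (p * q) / N : Matrix Γ Γ ℝ).PosSemidef := by
  have key : (Matrix.of fun p q => ψ (p * q) / N : Matrix Γ Γ ℝ) =
      ∑ i, ((∑ r, ψ r * χ i r) / N / N) • Matrix.vecMulVec (χ i) (star (χ i)) := by
    ext p q
    rw [Matrix.sum_apply]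
    simp only [Matrix.of_apply, Matrix.smul_apply, Matrix.vecMulVec_apply, smul_eq_mul,
      star_trivial]
    have h1 : ∀ i, (∑ r, ψ r * χ i r) / N / N * (χ i p * χ i q) =
        (∑ r, ψ r * χ i (r * (p * q))) / N / N := by
      intro i
      have : ∑ r, ψ r * χ i (r * (p * q)) = (∑ r, ψ r * χ i r) * (χ i p * χ i q) := by
        rw [Finset.sum_mul]
        refine Finset.sum_congr rfl fun r _ => ?_
        rw [hmul, hmul]; ring
      rw [this]; ring
    simp only [h1]
    rw [← Finset.sum_div, ← Finset.sum_div, Finset.sum_comm]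
    have h2 : ∀ r, ∑ i, ψ r * χ i (r * (p * q)) = if r = p * q then ψ r * N else 0 := by
      intro r
      rw [← Finset.mul_sum, hsum]
      have h3 : r * (p * q) = 1 ↔ r = p * q := by
        constructor
        · intro h
          have := hsq (p * q)
          calc r = r * ((p * q) * (p * q)) := by rw [this, mul_one]
            _ = (r * (p * q)) * (p * q) := (mul_assoc _ _ _).symm
            _ = p * q := by rw [h, one_mul]
        · rintro rfl; exact hsq _
      by_cases h : r = p * q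
      · rw [if_pos (h3.mpr h), if_pos h]
      · rw [if_neg (fun h' => h (h3.mp h')), if_neg h, mul_zero]
    simp only [h2]
    rw [Finset.sum_ite_eq' Finset.univ (p * q) (fun r => ψ r * N)]
    simp only [Finset.mem_univ, if_true]
    field_simp
  rw [key]
  refine Matrix.posSemidef_sum _ fun i _ => ?_
  refine (Matrix.posSemidef_vecMulVec_self_star (χ i)).smul ?_
  exact div_nonneg (div_nonneg (hψ i) hN.le) hN.le

/-- characters -/
noncomputable def chi {n : ℕ} (S : Finset (Fin n)) (z : Fin n → ℤˣ) : ℝ := ∏ i ∈ S, ((z i : ℤ) : ℝ)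

lemma chi_mul {n : ℕ} (S : Finset (Fin n)) (x y : Fin n → ℤˣ) : chi S (x * y) = chi S x * chi S y := by
  simp only [chi, Pi.mul_apply, Units.val_mul, Int.cast_mul, Finset.prod_mul_distrib]

lemma chi_one {n : ℕ} (S : Finset (Fin n)) : chi S (1 : Fin n → ℤˣ) = 1 := by
  simp [chi]

lemma sum_chi {n : ℕ} (z : Fin n → ℤˣ) : ∑ S : Finset (Fin n), chi S z = if z = 1 then (2:ℝ)^n else 0 := by
  have h := Finset.prod_one_add (f := fun i => ((z i : ℤ) : ℝ)) (Finset.univ : Finset (Fin n))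
  rw [Finset.powerset_univ] at h
  simp only [chi]
  rw [← h]
  split_ifs with hz
  · subst hz
    norm_num
  · have : ∃ i, z i ≠ 1 := by
      by_contra hcon
      push Not at hcon
      exact hz (funext hcon)
    obtain ⟨i, hi⟩ := this
    have h1 : z i = -1 := (Int.units_eq_one_or (z i)).resolve_left hi
    refine Finset.prod_eq_zero (Finset.mem_univ i) ?_
    rw [h1]; norm_num

lemma units_mul_self' {n : ℕ} (z : Fin n → ℤˣ) : z * z = 1 := by
  ext i
  simp



lemma separation {I L : Type*} [Fintype I] [Fintype L] (φ : I → L → ℝ) (i₀ : I)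
    (hi₀ : ∀ p, φ i₀ p = 1) (M : ℝ) (hM : 1 < M)
    (h : ∀ w : I → ℝ, (∀ i, 0 ≤ w i) → ∑ i, w i = 1 →
      ∃ p, 0 < 1 + (M - 1) * ∑ i, w i * φ i p) :
    ∃ g : L → ℝ, (∀ p, 0 ≤ g p) ∧ ∑ p, g p = M - 1 ∧ ∀ i, -1 ≤ ∑ p, g p * φ i p := by
  classical
  -- the linear map
  let T : (I → ℝ) →ₗ[ℝ] (L → ℝ) :=
    { toFun := fun w p => ∑ i, w i * (1 + (M - 1) * φ i p)
      map_add' := by
        intro a b
        ext p
        simp [add_mul, Finset.sum_add_distrib]
      map_smul' := by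
        intro c a
        ext p
        simp [Finset.mul_sum, mul_assoc] }
  have hT : Continuous T := T.continuous_of_finiteDimensional
  let K : Set (L → ℝ) := T '' (stdSimplex ℝ I)
  let D : Set (L → ℝ) := {y | ∀ p, y p ≤ 0}
  have hKc : IsCompact K := (isCompact_stdSimplex ℝ I).image hT
  have hKconv : Convex ℝ K := (convex_stdSimplex ℝ I).linear_image T
  have hDconv : Convex ℝ D := by
    intro x hx y hy a b ha hb _ p
    have h1 := mul_nonneg ha (neg_nonneg.mpr (hx p))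
    have h2 := mul_nonneg hb (neg_nonneg.mpr (hy p))
    simp only [Pi.add_apply, Pi.smul_apply, smul_eq_mul]
    nlinarith
  have hDclosed : IsClosed D := by
    have : D = ⋂ p, {y : L → ℝ | y p ≤ 0} := by
      ext y; simp [D]
    rw [this]
    exact isClosed_iInter fun p => isClosed_le (continuous_apply p) continuous_const
  have hdisj : Disjoint D K := by
    rw [Set.disjoint_left]
    rintro y hyD ⟨w, hw, rfl⟩
    obtain ⟨p, hp⟩ := h w hw.1 hw.2
    have := hyD p
    have h3 : T w p = 1 + (M - 1) * ∑ i, w i * φ i p := by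
      change ∑ i, w i * (1 + (M - 1) * φ i p) = _
      have h4 : ∀ i, w i * (1 + (M - 1) * φ i p) = w i + (M - 1) * (w i * φ i p) := by
        intro i; ring
      simp only [h4]
      rw [Finset.sum_add_distrib, ← Finset.mul_sum, hw.2]
    rw [h3] at this
    linarith
  obtain ⟨f, u, v, hfD, huv, hfK⟩ := geometric_hahn_banach_closed_compact hDconv hDclosed hKconv hKc hdisj
  have hu : 0 < u := by
    have := hfD 0 (by intro p; simp)
    simpa using this
  -- g
  let e : L → (L → ℝ) := fun p => Pi.single p 1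
  let g₀ : L → ℝ := fun p => f (e p)
  have hfe : ∀ y : L → ℝ, f y = ∑ p, y p * g₀ p := by
    intro y
    have : y = ∑ p, y p • e p := by
      ext q
      simp [e, Finset.sum_apply, Pi.single_apply]
    conv_lhs => rw [this]
    rw [map_sum]
    refine Finset.sum_congr rfl fun p _ => by
      rw [map_smul]; rfl
  have hg₀ : ∀ p, 0 ≤ g₀ p := by
    intro p
    by_contra hneg
    push Not at hneg
    have h1 : (-(u / (-(g₀ p)))) • e p ∈ D := by
      intro q
      simp only [Pi.smul_apply, smul_eq_mul, e]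
      have hpos : 0 ≤ u / (-(g₀ p)) := div_nonneg hu.le (by linarith)
      by_cases hq : q = p
      · subst hq; simp only [Pi.single_eq_same, mul_one]; linarith
      · simp [hq]
    have h2 := hfD _ h1
    rw [map_smul, smul_eq_mul] at h2
    change -(u / (-(g₀ p))) * g₀ p < u at h2
    have h3 : -(u / (-(g₀ p))) * g₀ p = u := by
      have h5 : g₀ p ≠ 0 := hneg.ne
      rw [div_neg, neg_neg, div_mul_cancel₀ _ h5]
    linarith
  have hKi : ∀ i, 0 < ∑ p, g₀ p + (M - 1) * ∑ p, g₀ p * φ i p := by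
    intro i
    have hmem : T (Pi.single i 1) ∈ K := ⟨_, single_mem_stdSimplex ℝ i, rfl⟩
    have h1 := hfK _ hmem
    rw [hfe] at h1
    have h2 : ∀ p, T (Pi.single i 1) p = 1 + (M - 1) * φ i p := by
      intro p
      change ∑ j, (Pi.single i (1:ℝ) : I → ℝ) j * (1 + (M - 1) * φ j p) = _
      simp [Pi.single_apply]
    simp only [h2] at h1
    have h3 : ∑ p, (1 + (M - 1) * φ i p) * g₀ p = ∑ p, g₀ p + (M - 1) * ∑ p, g₀ p * φ i p := by
      rw [Finset.mul_sum, ← Finset.sum_add_distrib]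
      refine Finset.sum_congr rfl fun p _ => by ring
    rw [h3] at h1
    linarith
  set t := ∑ p, g₀ p with ht
  have htpos : 0 < t := by
    have := hKi i₀
    simp only [hi₀, mul_one] at this
    rw [← ht] at this
    have h1 : t + (M - 1) * t = M * t := by ring
    rw [h1] at this
    by_contra hle
    push Not at hle
    nlinarith
  refine ⟨fun p => (M - 1) / t * g₀ p, ?_, ?_, ?_⟩
  · intro p
    exact mul_nonneg (div_nonneg (by linarith) htpos.le) (hg₀ p)
  · rw [← Finset.mul_sum, ← ht]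
    field_simp
  · intro i
    have h1 := hKi i
    have h2 : ∑ p, (M - 1) / t * g₀ p * φ i p = (M - 1) / t * ∑ p, g₀ p * φ i p := by
      rw [Finset.mul_sum]
      refine Finset.sum_congr rfl fun p _ => by ring
    rw [h2]
    have h3 : -1 = -(t / t) := by rw [div_self htpos.ne']
    rw [h3, div_mul_eq_mul_div, ← neg_div]
    apply div_le_div_of_nonneg_right _ htpos.le
    linarith


/-- The set of sign pairs with nonpositive coordinate sum on one side. -/
def Lset (n : ℕ) (p : (Fin n → ℤˣ) × (Fin n → ℤˣ)) : Prop :=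
  ∑ i, (p.1 i : ℤ) ≤ 0 ∨ ∑ i, (p.2 i : ℤ) ≤ 0

lemma le_schrijver_of (n : ℕ) (hn : 0 < n) (M : ℝ) (hM : 1 < M)
    (h : ∀ w : Finset (Fin n) × Finset (Fin n) → ℝ, (∀ i, 0 ≤ w i) → ∑ i, w i = 1 →
      ∃ p : (Fin n → ℤˣ) × (Fin n → ℤˣ), Lset n p ∧
        0 < 1 + (M - 1) * ∑ i, w i * (chi i.1 p.1 * chi i.2 p.2)) :
    M ≤ schrijverNumber (strongProduct (acuteGraph n) (acuteGraph n)) := by
  classical
  let Γ := (Fin n → ℤˣ) × (Fin n → ℤˣ)
  let I := Finset (Fin n) × Finset (Fin n)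
  let χ : I → Γ → ℝ := fun i p => chi i.1 p.1 * chi i.2 p.2
  obtain ⟨g, hg0, hgsum, hgi⟩ := separation (I := I) (L := {p : Γ // Lset n p})
    (fun i p => χ i p.1) ((∅, ∅) : I) (by intro p; simp [χ, chi]) M hM (by
      intro w hw0 hw1
      obtain ⟨p, hp, hp'⟩ := h w hw0 hw1
      exact ⟨⟨p, hp⟩, hp'⟩)
  let ψ : Γ → ℝ := fun r => (if r = 1 then 1 else 0) + (if hr : Lset n r then g ⟨r, hr⟩ else 0)
  have hψ0 : ∀ r, 0 ≤ ψ r := by
    intro r
    refine add_nonneg (by split_ifs <;> norm_num) ?_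
    split_ifs with hr
    · exact hg0 _
    · exact le_rfl
  have hsub : ∀ F : Γ → ℝ, ∑ r, (if hr : Lset n r then g ⟨r, hr⟩ else 0) * F r =
      ∑ p : {p : Γ // Lset n p}, g p * F p.1 := by
    intro F
    have h1 : ∀ r : Γ, (if hr : Lset n r then g ⟨r, hr⟩ else 0) * F r =
        if hr : Lset n r then g ⟨r, hr⟩ * F r else 0 := by
      intro r
      split_ifs <;> simp
    simp only [h1]
    rw [Finset.sum_dite]
    simp only [Finset.sum_const_zero, add_zero]
    refine Finset.sum_bij' (fun a _ => ⟨a.1, (Finset.mem_filter.mp a.2).2⟩)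
      (fun b _ => ⟨b.1, Finset.mem_filter.mpr ⟨Finset.mem_univ _, b.2⟩⟩) ?_ ?_ ?_ ?_ ?_
    · intro a _; exact Finset.mem_univ _
    · intro b _; exact Finset.mem_attach _ _
    · intro a _; rfl
    · intro b _; rfl
    · intro a _; rfl
  have hψsum : ∀ i, ∑ r, ψ r * χ i r = 1 + ∑ p : {p : Γ // Lset n p}, g p * χ i p.1 := by
    intro i
    simp only [ψ, add_mul, Finset.sum_add_distrib]
    rw [hsub]
    congr 1
    rw [Finset.sum_eq_single (1 : Γ)]
    · rw [if_pos rfl, one_mul]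
      change chi i.1 (1 : Fin n → ℤˣ) * chi i.2 (1 : Fin n → ℤˣ) = 1
      rw [chi_one, chi_one, one_mul]
    · intro b _ hb
      rw [if_neg hb, zero_mul]
    · intro h; exact absurd (Finset.mem_univ _) h
  have hψt : ∑ r, ψ r = M := by
    have := hψsum ((∅, ∅) : I)
    have hc : ∀ r : Γ, χ ((∅, ∅) : I) r = 1 := by intro r; simp [χ, chi]
    simp only [hc, mul_one] at this
    rw [this, hgsum]; ring
  set N : ℝ := (2:ℝ)^n * (2:ℝ)^n with hN
  have hNpos : 0 < N := by positivity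
  have hcard : (Fintype.card Γ : ℝ) = N := by
    simp only [Γ, Fintype.card_prod, Fintype.card_fun, Fintype.card_fin]
    have : Fintype.card ℤˣ = 2 := rfl
    rw [this]
    push_cast
    rfl
  have hsq : ∀ x : Γ, x * x = 1 := by
    intro x
    exact Prod.ext (units_mul_self' x.1) (units_mul_self' x.2)
  have hpsd := posSemidef_of_fourier χ N hNpos
    (by
      intro i x y
      change chi i.1 (x.1 * y.1) * chi i.2 (x.2 * y.2) =
        chi i.1 x.1 * chi i.2 x.2 * (chi i.1 y.1 * chi i.2 y.2)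
      rw [chi_mul, chi_mul]; ring)
    (by
      intro x
      have h1 : ∑ i : I, χ i x = (∑ S, chi S x.1) * (∑ T, chi T x.2) := by
        rw [Finset.sum_mul_sum]
        simp only [χ, I]
        rw [Fintype.sum_prod_type]
      rw [h1, sum_chi, sum_chi]
      by_cases h1 : x.1 = 1
      · by_cases h2 : x.2 = 1
        · have : x = 1 := Prod.ext h1 h2
          rw [if_pos h1, if_pos h2, if_pos this]
        · have : x ≠ 1 := fun h => h2 (by rw [h]; rfl)
          rw [if_neg h2, if_neg this, mul_zero]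
      · have : x ≠ 1 := fun h => h1 (by rw [h]; rfl)
        rw [if_neg h1, if_neg this, zero_mul]) hsq ψ
    (by
      intro i
      rw [hψsum i]
      linarith [hgi i])
  refine le_csSup (schrijver_bdd _) ⟨_, hpsd, ?_, ?_, ?_, ?_⟩
  · intro u v
    exact div_nonneg (hψ0 _) hNpos.le
  · have hone : ψ 1 = 1 := by
      have h1 : ¬ Lset n (1 : Γ) := by
        intro h1
        rcases h1 with h1 | h1
        · simp at h1; omega
        · simp at h1; omega
      simp only [ψ, if_true]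
      rw [dif_neg h1, add_zero]
    simp only [Matrix.trace, Matrix.diag, Matrix.of_apply]
    simp only [hsq, hone, Finset.sum_const, Finset.card_univ, nsmul_eq_mul]
    rw [hcard]
    field_simp
  · rintro u v ⟨huv, h1, h2⟩
    have h1' : 0 < ∑ i, ((u * v).1 i : ℤ) := by
      rcases h1 with h1 | h1
      · have : (u * v).1 = 1 := by
          rw [Prod.fst_mul, h1]; exact units_mul_self' _
        rw [this]; simpa using hn
      · have := h1.2
        simpa using this
    have h2' : 0 < ∑ i, ((u * v).2 i : ℤ) := by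
      rcases h2 with h2 | h2
      · have : (u * v).2 = 1 := by
          rw [Prod.snd_mul, h2]; exact units_mul_self' _
        rw [this]; simpa using hn
      · have := h2.2
        simpa using this
    have hne : u * v ≠ 1 := by
      intro h
      apply huv
      calc u = u * (v * v) := by rw [hsq, mul_one]
        _ = (u * v) * v := (mul_assoc _ _ _).symm
        _ = v := by rw [h, one_mul]
    have hL : ¬ Lset n (u * v) := by
      intro h
      rcases h with h | h
      · exact absurd h (not_le.mpr h1')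
      · exact absurd h (not_le.mpr h2')
    simp only [Matrix.of_apply, ψ]
    rw [if_neg hne, dif_neg hL]
    simp
  · have h1 : ∀ u : Γ, ∑ v, ψ (u * v) / N = M / N := by
      intro u
      rw [← Finset.sum_div]
      congr 1
      rw [← hψt]
      exact Fintype.sum_equiv (Equiv.mulLeft u) _ _ (fun _ => rfl)
    have h2 : ∑ u : Γ, ∑ v : Γ, ψ (u * v) / N = M := by
      simp only [h1]
      rw [Finset.sum_const, Finset.card_univ, nsmul_eq_mul, hcard]
      field_simp
    exact h2.symm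


lemma chi_le_one {n : ℕ} (S : Finset (Fin n)) (z : Fin n → ℤˣ) : |chi S z| = 1 := by
  unfold chi
  rw [Finset.abs_prod]
  refine Finset.prod_eq_one fun i _ => ?_
  rcases Int.units_eq_one_or (z i) with h | h <;> simp [h]

noncomputable def pim {n : ℕ} (s : ℝ) (z : Fin n → ℤˣ) : ℝ := ∏ i, (1 + s * ((z i : ℤ) : ℝ)) / 2

lemma pim_nonneg {n : ℕ} {s : ℝ} (h1 : -1 ≤ s) (h2 : s ≤ 1) (z : Fin n → ℤˣ) : 0 ≤ pim s z := by
  refine Finset.prod_nonneg fun i _ => ?_
  rcases Int.units_eq_one_or (z i) with h | h <;> rw [h] <;> norm_num <;> linarith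

lemma sum_units (f : ℤˣ → ℝ) : ∑ u : ℤˣ, f u = f 1 + f (-1) := by
  have : (Finset.univ : Finset ℤˣ) = {1, -1} := rfl
  rw [this, Finset.sum_pair (by decide)]

lemma sum_pim_chi {n : ℕ} (s : ℝ) (S : Finset (Fin n)) :
    ∑ z : Fin n → ℤˣ, pim s z * chi S z = s ^ S.card := by
  have h1 : ∀ z : Fin n → ℤˣ, pim s z * chi S z =
      ∏ i, ((1 + s * ((z i : ℤ) : ℝ)) / 2 * (if i ∈ S then ((z i : ℤ) : ℝ) else 1)) := by
    intro z
    rw [Finset.prod_mul_distrib]
    congr 1
    unfold chi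
    rw [Finset.prod_ite_mem, Finset.univ_inter]
  simp only [h1]
  have h2 := Finset.prod_univ_sum (fun _ : Fin n => (Finset.univ : Finset ℤˣ))
    (fun (i : Fin n) (u : ℤˣ) => ((1 + s * ((u : ℤ) : ℝ)) / 2 * (if i ∈ S then ((u : ℤ) : ℝ) else 1)))
  rw [Fintype.piFinset_univ] at h2
  rw [← h2]
  have h3 : ∀ i : Fin n, ∑ u : ℤˣ, ((1 + s * ((u : ℤ) : ℝ)) / 2 * (if i ∈ S then ((u : ℤ) : ℝ) else 1))
      = if i ∈ S then s else 1 := by
    intro i
    rw [sum_units]
    split_ifs <;> push_cast <;> ring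
  simp only [h3]
  rw [Finset.prod_ite_mem, Finset.univ_inter, Finset.prod_const]

lemma sum_pim {n : ℕ} (s : ℝ) : ∑ z : Fin n → ℤˣ, pim s z = 1 := by
  have := sum_pim_chi (n := n) s ∅
  simpa [chi] using this

lemma pim_le {n : ℕ} {s : ℝ} (h1 : -1 ≤ s) (h2 : s ≤ 0) (z : Fin n → ℤˣ)
    (hz : 0 < ∑ i, (z i : ℤ)) : pim s z ≤ (Real.sqrt (1 - s ^ 2) / 2) ^ n := by
  classical
  set w := Real.sqrt (1 - s ^ 2) with hw
  have hs2 : 0 ≤ 1 - s ^ 2 := by nlinarith
  have hw0 : 0 ≤ w := Real.sqrt_nonneg _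
  have hw2 : w * w = (1 + s) * (1 - s) := by
    rw [hw, Real.mul_self_sqrt hs2]; ring
  have hw1 : 1 + s ≤ w := by
    apply Real.le_sqrt_of_sq_le
    nlinarith
  have hpi : pim s z = ((1 + s) / 2) ^ (Finset.univ.filter (fun i => z i = 1)).card *
      ((1 - s) / 2) ^ (Finset.univ.filter (fun i => ¬ z i = 1)).card := by
    unfold pim
    rw [← Finset.prod_filter_mul_prod_filter_not Finset.univ (fun i => z i = 1)]
    congr 1
    · rw [← Finset.prod_const]
      refine Finset.prod_congr rfl fun i hi => ?_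
      rw [(Finset.mem_filter.mp hi).2]; norm_num
    · rw [← Finset.prod_const]
      refine Finset.prod_congr rfl fun i hi => ?_
      have := (Int.units_eq_one_or (z i)).resolve_left (Finset.mem_filter.mp hi).2
      rw [this]; push_cast; ring
  set p := (Finset.univ.filter (fun i => z i = 1)).card with hp
  set q := (Finset.univ.filter (fun i => ¬ z i = 1)).card with hq
  have hpq : p + q = n := by
    have := Finset.card_filter_add_card_filter_not (s := (Finset.univ : Finset (Fin n))) (fun i => z i = 1)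
    simpa using this
  have hsum : ∑ i, (z i : ℤ) = p - q := by
    rw [← Finset.sum_filter_add_sum_filter_not Finset.univ (fun i => z i = 1)]
    have e1 : ∑ i ∈ Finset.univ.filter (fun i => z i = 1), (z i : ℤ) = p := by
      rw [hp, Finset.sum_congr rfl (g := fun _ => (1 : ℤ))]
      · simp
      · intro i hi; rw [(Finset.mem_filter.mp hi).2]; rfl
    have e2 : ∑ i ∈ Finset.univ.filter (fun i => ¬ z i = 1), (z i : ℤ) = -q := by
      rw [hq, Finset.sum_congr rfl (g := fun _ => (-1 : ℤ))]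
      · simp
      · intro i hi
        rw [(Int.units_eq_one_or (z i)).resolve_left (Finset.mem_filter.mp hi).2]; rfl
    rw [e1, e2]; ring
  have hlt : q < p := by
    rw [hsum] at hz
    omega
  obtain ⟨d, hd⟩ := Nat.exists_eq_add_of_lt hlt
  rw [hpi]
  have hn : n = q + q + (d + 1) := by omega
  have hp' : p = q + (d + 1) := by omega
  rw [hn, hp', pow_add ((1 + s) / 2) q (d + 1), pow_add (w / 2) (q + q) (d + 1), pow_add (w / 2) q q]
  have key : ((1 + s) / 2) ^ q * ((1 - s) / 2) ^ q = (w / 2) ^ q * (w / 2) ^ q := by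
    rw [← mul_pow, ← mul_pow]
    congr 1
    have : w / 2 * (w / 2) = (w * w) / 4 := by ring
    rw [this, hw2]; ring
  calc ((1 + s) / 2) ^ q * ((1 + s) / 2) ^ (d + 1) * ((1 - s) / 2) ^ q
      = (((1 + s) / 2) ^ q * ((1 - s) / 2) ^ q) * ((1 + s) / 2) ^ (d + 1) := by ring
    _ = ((w / 2) ^ q * (w / 2) ^ q) * ((1 + s) / 2) ^ (d + 1) := by rw [key]
    _ ≤ ((w / 2) ^ q * (w / 2) ^ q) * (w / 2) ^ (d + 1) := by
        apply mul_le_mul_of_nonneg_left _ (by positivity)
        apply pow_le_pow_left₀ (by linarith)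
        linarith

lemma sum_pim_pos_le {n : ℕ} {s : ℝ} (h1 : -1 ≤ s) (h2 : s ≤ 0) :
    ∑ z : Fin n → ℤˣ, (if 0 < ∑ i, (z i : ℤ) then pim s z else 0) ≤ Real.sqrt (1 - s ^ 2) ^ n := by
  calc ∑ z : Fin n → ℤˣ, (if 0 < ∑ i, (z i : ℤ) then pim s z else 0)
      ≤ ∑ z : Fin n → ℤˣ, (Real.sqrt (1 - s ^ 2) / 2) ^ n := by
        refine Finset.sum_le_sum fun z _ => ?_
        split_ifs with h
        · exact pim_le h1 h2 z h
        · positivity
    _ = Real.sqrt (1 - s ^ 2) ^ n := by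
        rw [Finset.sum_const, Finset.card_univ, nsmul_eq_mul]
        have : Fintype.card (Fin n → ℤˣ) = 2 ^ n := by
          simp only [Fintype.card_fun, Fintype.card_fin]
          rfl
        rw [this, div_pow]
        push_cast
        field_simp


noncomputable def FF {n : ℕ} (M : ℝ) (w : Finset (Fin n) × Finset (Fin n) → ℝ) (s t : ℝ) : ℝ :=
  1 + (M - 1) * ∑ i, w i * (s ^ i.1.card * t ^ i.2.card)

lemma FF_eq {n : ℕ} (M : ℝ) (w : Finset (Fin n) × Finset (Fin n) → ℝ) (s t : ℝ) :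
    FF M w s t = ∑ z : Fin n → ℤˣ, ∑ z' : Fin n → ℤˣ, pim s z * pim t z' *
      (1 + (M - 1) * ∑ i, w i * (chi i.1 z * chi i.2 z')) := by
  have h1 : ∀ z z' : Fin n → ℤˣ, pim s z * pim t z' *
      (1 + (M - 1) * ∑ i, w i * (chi i.1 z * chi i.2 z')) =
      pim s z * pim t z' + (M - 1) * ∑ i, w i * ((pim s z * chi i.1 z) * (pim t z' * chi i.2 z')) := by
    intro z z'
    rw [mul_add, mul_one, Finset.mul_sum, Finset.mul_sum, Finset.mul_sum]
    congr 1
    refine Finset.sum_congr rfl fun i _ => by ring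
  simp only [h1, Finset.sum_add_distrib]
  have h2 : ∑ z : Fin n → ℤˣ, ∑ z' : Fin n → ℤˣ, pim s z * pim t z' = 1 := by
    rw [← Finset.sum_mul_sum, sum_pim, sum_pim, one_mul]
  rw [h2]
  unfold FF
  congr 1
  simp only [← Finset.mul_sum]
  congr 1
  have h3 : ∀ i : Finset (Fin n) × Finset (Fin n), w i * (s ^ i.1.card * t ^ i.2.card) =
      ∑ z : Fin n → ℤˣ, ∑ z' : Fin n → ℤˣ, w i * ((pim s z * chi i.1 z) * (pim t z' * chi i.2 z')) := by
    intro i
    simp only [← Finset.mul_sum]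
    rw [← sum_pim_chi s i.1, ← sum_pim_chi t i.2, Finset.sum_mul]
  rw [Finset.sum_congr rfl fun i _ => h3 i]
  rw [Finset.sum_comm]
  refine Finset.sum_congr rfl fun z _ => ?_
  rw [Finset.sum_comm]

lemma FF_le {n : ℕ} (M : ℝ) (hM : 1 < M) (w : Finset (Fin n) × Finset (Fin n) → ℝ)
    (hw0 : ∀ i, 0 ≤ w i) (hw1 : ∑ i, w i = 1)
    (hL : ∀ p : (Fin n → ℤˣ) × (Fin n → ℤˣ), Lset n p →
      1 + (M - 1) * ∑ i, w i * (chi i.1 p.1 * chi i.2 p.2) ≤ 0)
    {s t : ℝ} (hs1 : -1 ≤ s) (hs2 : s ≤ 0) (ht1 : -1 ≤ t) (ht2 : t ≤ 1) :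
    FF M w s t ≤ M * Real.sqrt (1 - s ^ 2) ^ n := by
  have hle : ∀ z z' : Fin n → ℤˣ, (1 + (M - 1) * ∑ i, w i * (chi i.1 z * chi i.2 z')) ≤ M := by
    intro z z'
    have : ∑ i, w i * (chi i.1 z * chi i.2 z') ≤ 1 := by
      rw [← hw1]
      refine Finset.sum_le_sum fun i _ => ?_
      have h1 : chi i.1 z * chi i.2 z' ≤ 1 := by
        refine (le_abs_self _).trans ?_
        rw [abs_mul, chi_le_one, chi_le_one, one_mul]
      nlinarith [hw0 i]
    nlinarith
  rw [FF_eq]
  calc ∑ z : Fin n → ℤˣ, ∑ z' : Fin n → ℤˣ, pim s z * pim t z' *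
      (1 + (M - 1) * ∑ i, w i * (chi i.1 z * chi i.2 z'))
      ≤ ∑ z : Fin n → ℤˣ, ∑ z' : Fin n → ℤˣ, (if 0 < ∑ i, (z i : ℤ) then pim s z else 0) * (M * pim t z') := by
        refine Finset.sum_le_sum fun z _ => Finset.sum_le_sum fun z' _ => ?_
        have hp1 := pim_nonneg hs1 (by linarith) z
        have hp2 := pim_nonneg ht1 ht2 z'
        split_ifs with h
        · have := hle z z'
          have h3 : 0 ≤ pim s z * pim t z' := mul_nonneg hp1 hp2
          nlinarith
        · have := hL (z, z') (Or.inl (not_lt.mp h))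
          have h3 : 0 ≤ pim s z * pim t z' := mul_nonneg hp1 hp2
          simp only at this
          nlinarith
    _ = M * ∑ z : Fin n → ℤˣ, (if 0 < ∑ i, (z i : ℤ) then pim s z else 0) := by
        rw [← Finset.sum_mul_sum, ← Finset.mul_sum, sum_pim]; ring
    _ ≤ M * Real.sqrt (1 - s ^ 2) ^ n := by
        apply mul_le_mul_of_nonneg_left (sum_pim_pos_le hs1 hs2) (by linarith)

lemma FF_le' {n : ℕ} (M : ℝ) (hM : 1 < M) (w : Finset (Fin n) × Finset (Fin n) → ℝ)
    (hw0 : ∀ i, 0 ≤ w i) (hw1 : ∑ i, w i = 1)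
    (hL : ∀ p : (Fin n → ℤˣ) × (Fin n → ℤˣ), Lset n p →
      1 + (M - 1) * ∑ i, w i * (chi i.1 p.1 * chi i.2 p.2) ≤ 0)
    {s t : ℝ} (hs1 : -1 ≤ s) (hs2 : s ≤ 1) (ht1 : -1 ≤ t) (ht2 : t ≤ 0) :
    FF M w s t ≤ M * Real.sqrt (1 - t ^ 2) ^ n := by
  have h := FF_le M hM (fun i => w i.swap) (fun i => hw0 _)
    (by rw [← hw1]; exact Fintype.sum_equiv (Equiv.prodComm _ _) _ _ (fun _ => rfl))
    (by
      intro p hp
      have := hL p.swap (hp.symm)
      refine le_of_eq_of_le ?_ this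
      congr 2
      refine Fintype.sum_equiv (Equiv.prodComm _ _) _ _ (fun i => ?_)
      simp only [Equiv.prodComm_apply, Prod.fst_swap, Prod.snd_swap]
      ring) ht1 ht2 hs1 hs2
  refine le_of_eq_of_le ?_ h
  unfold FF
  congr 2
  refine Fintype.sum_equiv (Equiv.prodComm _ _) _ _ (fun i => ?_)
  simp only [Equiv.prodComm_apply, Prod.fst_swap, Prod.snd_swap, Prod.swap_swap]
  ring


lemma geom_le (m : ℕ) : ∑ k ∈ range m, (1 / 16 : ℝ) ^ k ≤ 16 / 15 := by
  have h : ∀ m : ℕ, ∑ k ∈ range m, (1 / 16 : ℝ) ^ k = 16 / 15 - 16 / 15 * (1 / 16) ^ m := by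
    intro m
    induction m with
    | zero => norm_num
    | succ m ih => rw [Finset.sum_range_succ, ih, pow_succ]; ring
  rw [h m]
  have : (0 : ℝ) ≤ 16 / 15 * (1 / 16) ^ m := by positivity
  linarith

/-- the kernel -/
noncomputable def KK (i j : ℕ) : ℝ := (16 : ℝ) ^ (-((i : ℤ) - (j : ℤ)) ^ 2)

lemma KK_pos (i j : ℕ) : 0 < KK i j := by unfold KK; positivity

lemma KK_self (i : ℕ) : KK i i = 1 := by simp [KK]

lemma KK_add (i k : ℕ) : KK (i + k) i ≤ (1 / 16) ^ k := by
  unfold KK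
  have h1 : (-(((i + k : ℕ) : ℤ) - (i : ℤ)) ^ 2) ≤ -(k : ℤ) := by
    push_cast
    nlinarith [Int.natCast_nonneg k, sq_nonneg ((k : ℤ) - 1), (by
      rcases Nat.eq_zero_or_pos k with h | h
      · simp [h]
      · have : (1 : ℤ) ≤ k := by exact_mod_cast h
        nlinarith : (k : ℤ) ≤ (k : ℤ) ^ 2)]
  calc (16 : ℝ) ^ (-(((i + k : ℕ) : ℤ) - (i : ℤ)) ^ 2) ≤ (16 : ℝ) ^ (-(k : ℤ)) :=
        zpow_le_zpow_right₀ (by norm_num) h1
    _ = (1 / 16) ^ k := by
        rw [zpow_neg, zpow_natCast, one_div, inv_pow]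

lemma KK_symm (i j : ℕ) : KK i j = KK j i := by
  unfold KK
  congr 1
  ring

lemma sum_KK_le (W j : ℕ) (hj : j ≤ W) : ∑ i ∈ range (W + 1), KK i j ≤ 17 / 15 := by
  have h1 : ∑ i ∈ range (W + 1), KK i j = ∑ i ∈ range (j + 1), KK i j + ∑ i ∈ Ico (j + 1) (W + 1), KK i j := by
    rw [Finset.sum_range_add_sum_Ico _ (by omega)]
  have h2 : ∑ i ∈ range (j + 1), KK i j ≤ 16 / 15 := by
    rw [← Finset.sum_range_reflect]
    refine le_trans (Finset.sum_le_sum fun k hk => ?_) (geom_le (j + 1))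
    rw [Finset.mem_range] at hk
    rw [KK_symm]
    have : KK j (j + 1 - 1 - k) = KK ((j - k) + k) (j - k) := by
      rw [show j + 1 - 1 - k = j - k by omega, show j - k + k = j by omega]
    rw [this]
    exact KK_add _ _
  have h3 : ∑ i ∈ Ico (j + 1) (W + 1), KK i j ≤ 1 / 15 := by
    rw [Finset.sum_Ico_eq_sum_range]
    have : ∀ k ∈ range (W + 1 - (j + 1)), KK (j + 1 + k) j ≤ (1 / 16) * (1 / 16) ^ k := by
      intro k _
      have := KK_add j (1 + k)
      rw [← add_assoc] at this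
      rw [← pow_succ']
      convert this using 2
      ring
    refine le_trans (Finset.sum_le_sum this) ?_
    rw [← Finset.mul_sum]
    have := geom_le (W + 1 - (j + 1))
    linarith
  rw [h1]
  linarith

lemma dominant {I : Type} [Fintype I] (a : I → ℝ) (ha : ∀ i, 0 ≤ a i) (d1 d2 : I → ℕ) (i₀ : I)
    (h1 : d1 i₀ = 0) (h2 : d2 i₀ = 0) (ha0 : 1 ≤ a i₀) (W : ℕ)
    (hQ : (∑ i, a i) * (1 / 16) ^ (2 * W * (W + 1)) ≤ 1 / 4) :
    ∃ i0 ≤ W, ∃ j0 ≤ W, ∀ σ τ : ℝ, |σ| = 1 → |τ| = 1 → σ ^ i0 * τ ^ j0 = 1 →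
      2 / 5 ≤ ∑ x, a x * ((σ * (1 / 16) ^ (4 * W - 2 * i0)) ^ d1 x *
        (τ * (1 / 16) ^ (4 * W - 2 * j0)) ^ d2 x) := by
  classical
  let A : ℕ × ℕ → ℝ := fun p => ∑ x ∈ univ.filter (fun x => (d1 x, d2 x) = p), a x
  have hA : ∀ p, 0 ≤ A p := fun p => Finset.sum_nonneg fun x _ => ha x
  let B : ℕ × ℕ → ℝ := fun p => A p * ((16 : ℝ) ^ ((p.1 : ℤ) ^ 2 - 4 * W * p.1) * (16 : ℝ) ^ ((p.2 : ℤ) ^ 2 - 4 * W * p.2))
  let box := range (W + 1) ×ˢ range (W + 1)
  obtain ⟨⟨i0, j0⟩, hp0, hmax⟩ := Finset.exists_max_image box B ⟨(0, 0), by simp [box]⟩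
  have hi0 : i0 ≤ W := by
    have := (Finset.mem_product.mp hp0).1
    simp only [Finset.mem_range] at this; omega
  have hj0 : j0 ≤ W := by
    have := (Finset.mem_product.mp hp0).2
    simp only [Finset.mem_range] at this; omega
  refine ⟨i0, hi0, j0, hj0, ?_⟩
  intro σ τ hσ hτ hστ
  set s0 : ℝ := (1 / 16) ^ (4 * W - 2 * i0) with hs0
  set t0 : ℝ := (1 / 16) ^ (4 * W - 2 * j0) with ht0
  have hs0pos : 0 < s0 := by positivity
  have ht0pos : 0 < t0 := by positivity
  have hs0z : s0 = (16 : ℝ) ^ (-(4 * W - 2 * i0) : ℤ) := by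
    rw [hs0, one_div, inv_pow, zpow_neg]
    congr 1
    rw [← zpow_natCast]
    congr 1
    push_cast [Nat.cast_sub (show 2 * i0 ≤ 4 * W by omega)]
    ring
  have ht0z : t0 = (16 : ℝ) ^ (-(4 * W - 2 * j0) : ℤ) := by
    rw [ht0, one_div, inv_pow, zpow_neg]
    congr 1
    rw [← zpow_natCast]
    congr 1
    push_cast [Nat.cast_sub (show 2 * j0 ≤ 4 * W by omega)]
    ring
  set T0 := A (i0, j0) * (s0 ^ i0 * t0 ^ j0) with hT0
  -- B bound
  have hB00 : 1 ≤ B (0, 0) := by
    simp only [B]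
    norm_num
    simp only [A]
    refine ha0.trans ?_
    apply Finset.single_le_sum (f := a) (fun x _ => ha x)
    simp [h1, h2]
  have hs0i : ∀ i : ℕ, s0 ^ i = (16 : ℝ) ^ ((i : ℤ) ^ 2 - 4 * W * i) * ((16 : ℝ) ^ ((i0 : ℤ) ^ 2) * KK i i0) := by
    intro i
    rw [hs0z, KK, ← zpow_natCast, ← zpow_mul, ← zpow_add₀ (by norm_num), ← zpow_add₀ (by norm_num)]
    congr 1
    ring
  have ht0i : ∀ i : ℕ, t0 ^ i = (16 : ℝ) ^ ((i : ℤ) ^ 2 - 4 * W * i) * ((16 : ℝ) ^ ((j0 : ℤ) ^ 2) * KK i j0) := by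
    intro i
    rw [ht0z, KK, ← zpow_natCast, ← zpow_mul, ← zpow_add₀ (by norm_num), ← zpow_add₀ (by norm_num)]
    congr 1
    ring
  have hT0B : T0 = B (i0, j0) * ((16 : ℝ) ^ ((i0 : ℤ) ^ 2) * (16 : ℝ) ^ ((j0 : ℤ) ^ 2)) := by
    rw [hT0, hs0i, ht0i, KK_self, KK_self]
    simp only [B]
    ring
  have hT01 : 1 ≤ T0 := by
    rw [hT0B]
    have e1 : 1 ≤ B (i0, j0) := hB00.trans (hmax (0, 0) (by simp [box]))
    have e2 : (1 : ℝ) ≤ (16 : ℝ) ^ ((i0 : ℤ) ^ 2) := one_le_zpow₀ (by norm_num) (by positivity)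
    have e3 : (1 : ℝ) ≤ (16 : ℝ) ^ ((j0 : ℤ) ^ 2) := one_le_zpow₀ (by norm_num) (by positivity)
    have e4 : (1 : ℝ) ≤ (16 : ℝ) ^ ((i0 : ℤ) ^ 2) * (16 : ℝ) ^ ((j0 : ℤ) ^ 2) := by nlinarith
    nlinarith
  have hbox : ∀ p ∈ box, A p * (s0 ^ p.1 * t0 ^ p.2) ≤ T0 * (KK p.1 i0 * KK p.2 j0) := by
    intro p hp
    have hm := hmax p hp
    have e1 : A p * (s0 ^ p.1 * t0 ^ p.2) =
        B p * (((16 : ℝ) ^ ((i0 : ℤ) ^ 2) * (16 : ℝ) ^ ((j0 : ℤ) ^ 2)) * (KK p.1 i0 * KK p.2 j0)) := by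
      rw [hs0i, ht0i]
      simp only [B]
      ring
    rw [e1, hT0B, mul_assoc (B (i0, j0))]
    apply mul_le_mul_of_nonneg_right hm
    have := KK_pos p.1 i0
    have := KK_pos p.2 j0
    positivity
  -- split the sum
  let f : I → ℝ := fun x => a x * (s0 ^ d1 x * t0 ^ d2 x)
  have hf0 : ∀ x, 0 ≤ f x := fun x => by
    have := ha x
    positivity
  have hfiber : ∀ p, ∑ x ∈ univ.filter (fun x => (d1 x, d2 x) = p), f x = A p * (s0 ^ p.1 * t0 ^ p.2) := by
    intro p
    simp only [A, Finset.sum_mul, f]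
    refine Finset.sum_congr rfl fun x hx => ?_
    have := (Finset.mem_filter.mp hx).2
    rw [← this]
  let S1 := univ.filter (fun x : I => (d1 x, d2 x) = (i0, j0))
  let S2 := univ.filter (fun x : I => (d1 x, d2 x) ∈ box.erase (i0, j0))
  let S3 := univ.filter (fun x : I => (d1 x, d2 x) ∉ box)
  have hS2 : ∑ x ∈ S2, f x ≤ 64 / 225 * T0 := by
    have e1 : ∑ x ∈ S2, f x = ∑ p ∈ box.erase (i0, j0), ∑ x ∈ univ.filter (fun x => (d1 x, d2 x) = p), f x := by
      rw [← Finset.sum_fiberwise_of_maps_to (s := S2) (t := box.erase (i0, j0)) (g := fun x => (d1 x, d2 x))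
        (by intro x hx; exact (Finset.mem_filter.mp hx).2)]
      refine Finset.sum_congr rfl fun p hp => ?_
      refine Finset.sum_congr ?_ fun _ _ => rfl
      ext x
      simp only [S2, Finset.mem_filter, Finset.mem_univ, true_and]
      constructor
      · rintro ⟨_, h⟩; exact h
      · intro h; exact ⟨h ▸ hp, h⟩
    rw [e1]
    have e2 : ∑ p ∈ box.erase (i0, j0), ∑ x ∈ univ.filter (fun x => (d1 x, d2 x) = p), f x ≤
        ∑ p ∈ box.erase (i0, j0), T0 * (KK p.1 i0 * KK p.2 j0) := by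
      refine Finset.sum_le_sum fun p hp => ?_
      rw [hfiber]
      exact hbox p (Finset.mem_of_mem_erase hp)
    refine e2.trans ?_
    rw [← Finset.mul_sum]
    have e3 : ∑ p ∈ box, KK p.1 i0 * KK p.2 j0 ≤ 289 / 225 := by
      simp only [box]
      rw [Finset.sum_product]
      dsimp only
      rw [← Finset.sum_mul_sum]
      have := sum_KK_le W i0 hi0
      have := sum_KK_le W j0 hj0
      have : 0 ≤ ∑ i ∈ range (W + 1), KK i i0 := Finset.sum_nonneg fun i _ => (KK_pos _ _).le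
      have : 0 ≤ ∑ i ∈ range (W + 1), KK i j0 := Finset.sum_nonneg fun i _ => (KK_pos _ _).le
      nlinarith
    rw [← Finset.add_sum_erase box _ hp0, KK_self, KK_self] at e3
    nlinarith
  have hS3 : ∑ x ∈ S3, f x ≤ 1 / 4 := by
    have e1 : ∀ x ∈ S3, f x ≤ a x * (1 / 16) ^ (2 * W * (W + 1)) := by
      intro x hx
      apply mul_le_mul_of_nonneg_left _ (ha x)
      have hx' := (Finset.mem_filter.mp hx).2
      have hs0le : s0 ≤ (1 / 16) ^ (2 * W) := by
        rw [hs0]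
        apply pow_le_pow_of_le_one (by norm_num) (by norm_num) (by omega)
      have ht0le : t0 ≤ (1 / 16) ^ (2 * W) := by
        rw [ht0]
        apply pow_le_pow_of_le_one (by norm_num) (by norm_num) (by omega)
      have hs01 : s0 ≤ 1 := by rw [hs0]; exact pow_le_one₀ (by norm_num) (by norm_num)
      have ht01 : t0 ≤ 1 := by rw [ht0]; exact pow_le_one₀ (by norm_num) (by norm_num)
      have : W + 1 ≤ d1 x ∨ W + 1 ≤ d2 x := by
        by_contra hcon
        push Not at hcon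
        apply hx'
        simp only [box, Finset.mem_product, Finset.mem_range]
        exact hcon
      rcases this with h | h
      · have e3 : s0 ^ d1 x ≤ (1 / 16) ^ (2 * W * (W + 1)) := by
          calc s0 ^ d1 x ≤ s0 ^ (W + 1) := pow_le_pow_of_le_one hs0pos.le hs01 h
            _ ≤ ((1 / 16) ^ (2 * W)) ^ (W + 1) := pow_le_pow_left₀ hs0pos.le hs0le _
            _ = (1 / 16) ^ (2 * W * (W + 1)) := by rw [← pow_mul]
        have e4 : t0 ^ d2 x ≤ 1 := pow_le_one₀ ht0pos.le ht01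
        calc s0 ^ d1 x * t0 ^ d2 x ≤ (1 / 16) ^ (2 * W * (W + 1)) * 1 :=
              mul_le_mul e3 e4 (by positivity) (by positivity)
          _ = _ := mul_one _
      · have e3 : t0 ^ d2 x ≤ (1 / 16) ^ (2 * W * (W + 1)) := by
          calc t0 ^ d2 x ≤ t0 ^ (W + 1) := pow_le_pow_of_le_one ht0pos.le ht01 h
            _ ≤ ((1 / 16) ^ (2 * W)) ^ (W + 1) := pow_le_pow_left₀ ht0pos.le ht0le _
            _ = (1 / 16) ^ (2 * W * (W + 1)) := by rw [← pow_mul]
        have e4 : s0 ^ d1 x ≤ 1 := pow_le_one₀ hs0pos.le hs01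
        calc s0 ^ d1 x * t0 ^ d2 x ≤ 1 * (1 / 16) ^ (2 * W * (W + 1)) :=
              mul_le_mul e4 e3 (by positivity) (by positivity)
          _ = _ := one_mul _
    refine (Finset.sum_le_sum e1).trans ?_
    rw [← Finset.sum_mul]
    refine le_trans ?_ hQ
    apply mul_le_mul_of_nonneg_right _ (by positivity)
    exact Finset.sum_le_sum_of_subset_of_nonneg (Finset.subset_univ _) (fun x _ _ => ha x)
  -- signed sum
  let g : I → ℝ := fun x => a x * ((σ * s0) ^ d1 x * (τ * t0) ^ d2 x)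
  have hgf : ∀ x, -f x ≤ g x := by
    intro x
    have : |g x| = f x := by
      simp only [g, f, abs_mul, abs_pow, hσ, hτ, one_mul, abs_of_pos hs0pos, abs_of_pos ht0pos, abs_of_nonneg (ha x)]
    rw [← this]
    exact neg_abs_le _
  have hg1 : ∑ x ∈ S1, g x = T0 := by
    have : ∑ x ∈ S1, g x = ∑ x ∈ S1, f x := by
      refine Finset.sum_congr rfl fun x hx => ?_
      have hx' := (Finset.mem_filter.mp hx).2
      have e1 : d1 x = i0 := congrArg Prod.fst hx'
      have e2 : d2 x = j0 := congrArg Prod.snd hx'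
      simp only [g, f, e1, e2, mul_pow]
      have : a x * (σ ^ i0 * s0 ^ i0 * (τ ^ j0 * t0 ^ j0)) = (σ ^ i0 * τ ^ j0) * (a x * (s0 ^ i0 * t0 ^ j0)) := by ring
      rw [this, hστ, one_mul]
    rw [this, hfiber (i0, j0)]
  have hsplit : ∑ x, g x = ∑ x ∈ S1, g x + (∑ x ∈ S2, g x + ∑ x ∈ S3, g x) := by
    rw [← Finset.sum_union, ← Finset.sum_union]
    · refine Finset.sum_congr ?_ fun _ _ => rfl
      ext x
      simp only [S1, S2, S3, Finset.mem_union, Finset.mem_filter, Finset.mem_univ, true_and, true_iff,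
        Finset.mem_erase]
      by_cases e1 : (d1 x, d2 x) = (i0, j0)
      · exact Or.inl e1
      · by_cases e2 : (d1 x, d2 x) ∈ box
        · exact Or.inr (Or.inl ⟨e1, e2⟩)
        · exact Or.inr (Or.inr e2)
    · rw [Finset.disjoint_left]
      intro x hx hx'
      rw [Finset.mem_union] at hx'
      have e1 := (Finset.mem_filter.mp hx).2
      rcases hx' with hx' | hx'
      · exact (Finset.mem_erase.mp (Finset.mem_filter.mp hx').2).1 e1
      · exact (Finset.mem_filter.mp hx').2 (e1 ▸ hp0)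
    · rw [Finset.disjoint_left]
      intro x hx hx'
      exact (Finset.mem_filter.mp hx').2 (Finset.mem_of_mem_erase (Finset.mem_filter.mp hx).2)
  have hg2 : -∑ x ∈ S2, f x ≤ ∑ x ∈ S2, g x := by
    rw [← Finset.sum_neg_distrib]
    exact Finset.sum_le_sum fun x _ => hgf x
  have hg3 : -∑ x ∈ S3, f x ≤ ∑ x ∈ S3, g x := by
    rw [← Finset.sum_neg_distrib]
    exact Finset.sum_le_sum fun x _ => hgf x
  change 2 / 5 ≤ ∑ x, g x
  rw [hsplit, hg1]
  linarith


lemma two_pow_bound (W : ℕ) (hW : 1 ≤ W) : 8 * W * (W + 1) ≤ 2 ^ (32 * W - 1) := by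
  have h1 : W ≤ 2 ^ W := Nat.lt_two_pow_self.le
  have h2 : W + 1 ≤ 2 ^ W := Nat.lt_two_pow_self
  calc 8 * W * (W + 1) ≤ 8 * 2 ^ W * 2 ^ W := by gcongr
    _ = 2 ^ (3 + W + W) := by rw [pow_add, pow_add]; norm_num
    _ ≤ 2 ^ (32 * W - 1) := Nat.pow_le_pow_right (by norm_num) (by omega)

lemma numeric (n W : ℕ) (hW : 1 ≤ W) (hn : 2 ^ (64 * W) ≤ n) (s : ℝ)
    (hs3 : (1 / 16 : ℝ) ^ (4 * W) ≤ -s) :
    (2 : ℝ) ^ (8 * W * (W + 1) - 2) * Real.sqrt (1 - s ^ 2) ^ n < 2 / 5 := by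
  have hs4 : ((1 / 16 : ℝ) ^ (4 * W)) ^ 2 ≤ s ^ 2 := by
    rw [← neg_sq s]
    exact pow_le_pow_left₀ (by positivity) hs3 2
  have h1 : Real.sqrt (1 - s ^ 2) ≤ Real.exp (-(s ^ 2) / 2) := by
    apply Real.sqrt_le_iff.mpr
    refine ⟨(Real.exp_pos _).le, ?_⟩
    rw [← Real.exp_nat_mul]
    have := Real.add_one_le_exp (-(s ^ 2))
    have e : ((2 : ℕ) : ℝ) * (-(s ^ 2) / 2) = -(s ^ 2) := by push_cast; ring
    rw [e]
    linarith
  have h2 : Real.sqrt (1 - s ^ 2) ^ n ≤ Real.exp (-(2 : ℝ) ^ (32 * W - 1)) := by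
    calc Real.sqrt (1 - s ^ 2) ^ n ≤ Real.exp (-(s ^ 2) / 2) ^ n :=
          pow_le_pow_left₀ (Real.sqrt_nonneg _) h1 n
      _ = Real.exp (n * (-(s ^ 2) / 2)) := by rw [← Real.exp_nat_mul]
      _ ≤ Real.exp (-(2 : ℝ) ^ (32 * W - 1)) := by
          apply Real.exp_le_exp.mpr
          have e1 : (2 : ℝ) ^ (64 * W) ≤ n := by exact_mod_cast hn
          have e2 : ((1 / 16 : ℝ) ^ (4 * W)) ^ 2 = (1 / 2) ^ (32 * W) := by
            rw [show (1 / 16 : ℝ) = (1 / 2) ^ 4 by norm_num, ← pow_mul, ← pow_mul]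
            congr 1
            ring
          rw [e2] at hs4
          have e3 : (2 : ℝ) ^ (32 * W) ≤ n * s ^ 2 := by
            calc (2 : ℝ) ^ (32 * W) = (2 : ℝ) ^ (64 * W) * (1 / 2) ^ (32 * W) := by
                  rw [show 64 * W = 32 * W + 32 * W by ring, pow_add, mul_assoc, ← mul_pow]
                  norm_num
              _ ≤ n * s ^ 2 := mul_le_mul e1 hs4 (by positivity) (by positivity)
          have e4 : (2 : ℝ) ^ (32 * W) = 2 * (2 : ℝ) ^ (32 * W - 1) := by
            rw [← pow_succ']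
            congr 1
            omega
          rw [e4] at e3
          linarith
  have h3 : ((8 * W * (W + 1) : ℕ) : ℝ) ≤ (2 : ℝ) ^ (32 * W - 1) := by
    exact_mod_cast two_pow_bound W hW
  have h4 : Real.exp (-(2 : ℝ) ^ (32 * W - 1)) ≤ (1 / 2) ^ (8 * W * (W + 1)) := by
    calc Real.exp (-(2 : ℝ) ^ (32 * W - 1)) ≤ Real.exp (-((8 * W * (W + 1) : ℕ) : ℝ)) := by
          apply Real.exp_le_exp.mpr; linarith
      _ = (Real.exp (-1)) ^ (8 * W * (W + 1)) := by
          rw [← Real.exp_nat_mul]; ring_nf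
      _ ≤ (1 / 2) ^ (8 * W * (W + 1)) := by
          apply pow_le_pow_left₀ (Real.exp_pos _).le
          rw [Real.exp_neg, one_div]
          apply inv_anti₀ (by norm_num)
          have := Real.add_one_le_exp (1 : ℝ)
          linarith
  have h5 : 2 ≤ 8 * W * (W + 1) := by nlinarith
  calc (2 : ℝ) ^ (8 * W * (W + 1) - 2) * Real.sqrt (1 - s ^ 2) ^ n
      ≤ (2 : ℝ) ^ (8 * W * (W + 1) - 2) * (1 / 2) ^ (8 * W * (W + 1)) :=
        mul_le_mul_of_nonneg_left (h2.trans h4) (by positivity)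
    _ = 1 / 4 := by
        obtain ⟨k, hk⟩ := Nat.exists_eq_add_of_le h5
        rw [hk, show 2 + k - 2 = k by omega, pow_add, mul_comm, mul_assoc, ← mul_pow]
        norm_num
    _ < 2 / 5 := by norm_num

lemma large_bound (n W : ℕ) (hW : 1 ≤ W) (hn : 2 ^ (64 * W) ≤ n) :
    (2 : ℝ) ^ (8 * W * (W + 1) - 2) ≤
      schrijverNumber (strongProduct (acuteGraph n) (acuteGraph n)) := by
  classical
  have h5 : 14 ≤ 8 * W * (W + 1) - 2 := by
    have : 16 ≤ 8 * W * (W + 1) := by nlinarith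
    omega
  set M : ℝ := (2 : ℝ) ^ (8 * W * (W + 1) - 2) with hMdef
  have hM : 1 < M := one_lt_pow₀ (by norm_num) (by omega)
  have hnpos : 0 < n := lt_of_lt_of_le (by positivity) hn
  apply le_schrijver_of n hnpos M hM
  intro w hw0 hw1
  by_contra hcon
  push Not at hcon
  -- hcon : ∀ p, Lset n p → f p ≤ 0
  let I := Finset (Fin n) × Finset (Fin n)
  let a : I → ℝ := fun i => (if i = (∅, ∅) then 1 else 0) + (M - 1) * w i
  have ha : ∀ i, 0 ≤ a i := by
    intro i
    have := hw0 i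
    have h1 : (0 : ℝ) ≤ if i = ((∅, ∅) : I) then 1 else 0 := by split_ifs <;> norm_num
    have h2 : 0 ≤ (M - 1) * w i := mul_nonneg (by linarith) this
    exact add_nonneg h1 h2
  have hasum : ∑ i, a i = M := by
    simp only [a, Finset.sum_add_distrib, ← Finset.mul_sum]
    rw [Finset.sum_ite_eq' Finset.univ ((∅, ∅) : I) (fun _ => (1 : ℝ))]
    rw [if_pos (Finset.mem_univ _), show ∑ i : I, w i = 1 from hw1]
    ring
  have hFF : ∀ s t : ℝ, FF M w s t = ∑ x : I, a x * (s ^ x.1.card * t ^ x.2.card) := by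
    intro s t
    simp only [a, add_mul, Finset.sum_add_distrib]
    unfold FF
    congr 1
    · rw [Finset.sum_eq_single ((∅, ∅) : I)]
      · simp
      · intro b _ hb
        rw [if_neg hb, zero_mul]
      · intro h; exact absurd (Finset.mem_univ _) h
    · rw [Finset.mul_sum]
      refine Finset.sum_congr rfl fun i _ => by ring
  obtain ⟨i0, hi0, j0, hj0, hdom⟩ := dominant (I := I) a ha (fun i => i.1.card) (fun i => i.2.card)
    (∅, ∅) (by simp) (by simp) (by
      simp only [a, if_true]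
      have := hw0 (∅, ∅)
      nlinarith) W (by
      rw [hasum, hMdef]
      have h6 : 2 ≤ 8 * W * (W + 1) := by omega
      rw [show (1 / 16 : ℝ) = (1 / 2) ^ 4 by norm_num, ← pow_mul, show 4 * (2 * W * (W + 1)) = 8 * W * (W + 1) by ring]
      obtain ⟨k, hk⟩ := Nat.exists_eq_add_of_le h6
      rw [hk, show 2 + k - 2 = k by omega, pow_add, mul_comm, mul_assoc, ← mul_pow]
      norm_num)
  have hsle : ∀ i, i ≤ W → (1 / 16 : ℝ) ^ (4 * W) ≤ (1 / 16) ^ (4 * W - 2 * i) := by
    intro i hi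
    exact pow_le_pow_of_le_one (by norm_num) (by norm_num) (by omega)
  have hsle1 : ∀ i, (1 / 16 : ℝ) ^ (4 * W - 2 * i) ≤ 1 := by
    intro i
    exact pow_le_one₀ (by norm_num) (by norm_num)
  have hspos : ∀ i, (0 : ℝ) < (1 / 16 : ℝ) ^ (4 * W - 2 * i) := by
    intro i
    positivity
  set s0 : ℝ := (1 / 16) ^ (4 * W - 2 * i0) with hs0
  set t0 : ℝ := (1 / 16) ^ (4 * W - 2 * j0) with ht0
  have A1 := hsle i0 hi0
  have A2 := hsle j0 hj0
  have A3 := hsle1 i0
  have A4 := hsle1 j0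
  have A5 := hspos i0
  have A6 := hspos j0
  rw [← hs0] at A1 A3 A5
  rw [← ht0] at A2 A4 A6
  have hL : ∀ p : (Fin n → ℤˣ) × (Fin n → ℤˣ), Lset n p →
      1 + (M - 1) * ∑ i, w i * (chi i.1 p.1 * chi i.2 p.2) ≤ 0 := hcon
  rcases Nat.even_or_odd i0 with he | ho
  · -- i0 even: σ = -1, τ = 1
    have h1 := hdom (-1) 1 (by norm_num) (by norm_num) (by rw [he.neg_one_pow]; norm_num)
    rw [← hFF] at h1
    have h2 := FF_le M hM w hw0 hw1 hL (s := -1 * s0) (t := 1 * t0) (by linarith) (by linarith)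
      (by linarith) (by linarith)
    have h3 := numeric n W hW hn (-1 * s0) (by linarith)
    rw [← hMdef] at h3
    linarith
  · rcases Nat.even_or_odd j0 with he' | ho'
    · have h1 := hdom 1 (-1) (by norm_num) (by norm_num) (by rw [he'.neg_one_pow]; norm_num)
      rw [← hFF] at h1
      have h2 := FF_le' M hM w hw0 hw1 hL (s := 1 * s0) (t := -1 * t0) (by linarith) (by linarith)
        (by linarith) (by linarith)
      have h3 := numeric n W hW hn (-1 * t0) (by linarith)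
      rw [← hMdef] at h3
      linarith
    · have h1 := hdom (-1) (-1) (by norm_num) (by norm_num) (by
        rw [ho.neg_one_pow, ho'.neg_one_pow]; norm_num)
      rw [← hFF] at h1
      have h2 := FF_le M hM w hw0 hw1 hL (s := -1 * s0) (t := -1 * t0) (by linarith) (by linarith)
        (by linarith) (by linarith)
      have h3 := numeric n W hW hn (-1 * s0) (by linarith)
      rw [← hMdef] at h3
      linarith

lemma small_bound (n : ℕ) (hn : 1 ≤ n) :
    (3 / 2 : ℝ) ≤ schrijverNumber (strongProduct (acuteGraph n) (acuteGraph n)) := by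
  classical
  apply le_schrijver_of n hn (3 / 2) (by norm_num)
  intro w hw0 hw1
  refine ⟨(1, -1), Or.inr ?_, ?_⟩
  · simp
  · have h1 : -1 ≤ ∑ i, w i * (chi i.1 (1 : Fin n → ℤˣ) * chi i.2 (-1 : Fin n → ℤˣ)) := by
      rw [← hw1, ← Finset.sum_neg_distrib]
      refine Finset.sum_le_sum fun i _ => ?_
      have h2 : -1 ≤ chi i.1 (1 : Fin n → ℤˣ) * chi i.2 (-1 : Fin n → ℤˣ) := by
        have h3 : |chi i.1 (1 : Fin n → ℤˣ) * chi i.2 (-1 : Fin n → ℤˣ)| = 1 := by
          rw [abs_mul, chi_le_one, chi_le_one, one_mul]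
        exact (neg_le_neg h3.le).trans (neg_abs_le _)
      nlinarith [hw0 i]
    dsimp only
    linarith

lemma nat_ineq (W : ℕ) (hW : 1 ≤ W) : 2 * (W + 1) ^ 2 ≤ 8 * W * (W + 1) - 2 := by
  obtain ⟨k, rfl⟩ := Nat.exists_eq_add_of_le hW
  have h : 2 * (1 + k + 1) ^ 2 + 2 ≤ 8 * (1 + k) * (1 + k + 1) := by nlinarith
  omega

lemma exp_bound (n W : ℕ) (hn : 1 ≤ n) (hW : 1 ≤ W) (hnW2 : n < 2 ^ (64 * (W + 1))) :
    Real.exp (Real.log n ^ 2 / 8192) ≤ (2 : ℝ) ^ (8 * W * (W + 1) - 2) := by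
  have hnpos : (0 : ℝ) < n := by exact_mod_cast hn
  have hlog0 : 0 ≤ Real.log n := Real.log_nonneg (by exact_mod_cast hn)
  have hl2 : 0 < Real.log 2 := Real.log_pos (by norm_num)
  have hl2' : Real.log 2 < 1 := by
    have := Real.log_two_lt_d9
    linarith
  have h1 : Real.log n ≤ 64 * (W + 1) * Real.log 2 := by
    have h2 : Real.log n ≤ Real.log ((2 : ℝ) ^ (64 * (W + 1))) := by
      apply Real.log_le_log hnpos
      exact_mod_cast hnW2.le
    rw [Real.log_pow] at h2
    push_cast at h2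
    exact h2
  have h3 : (2 : ℝ) ^ (8 * W * (W + 1) - 2) = Real.exp (((8 * W * (W + 1) - 2 : ℕ) : ℝ) * Real.log 2) := by
    rw [mul_comm (((8 * W * (W + 1) - 2 : ℕ) : ℝ)) (Real.log 2), Real.exp_mul,
      Real.exp_log (by norm_num), Real.rpow_natCast]
  rw [h3]
  apply Real.exp_le_exp.mpr
  have h4 : (2 : ℝ) * (W + 1) ^ 2 ≤ ((8 * W * (W + 1) - 2 : ℕ) : ℝ) := by
    have h5 := nat_ineq W hW
    exact_mod_cast h5
  have h6 : Real.log n ^ 2 ≤ (64 * (W + 1) * Real.log 2) ^ 2 := pow_le_pow_left₀ hlog0 h1 2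
  have h7 : (64 * ((W : ℝ) + 1) * Real.log 2) ^ 2 / 8192 ≤ 2 * (W + 1) ^ 2 * Real.log 2 := by
    have e1 : (64 * ((W : ℝ) + 1) * Real.log 2) ^ 2 / 8192 =
        (1 / 2 * (W + 1) ^ 2 * Real.log 2) * Real.log 2 := by ring
    rw [e1]
    have e2 : 0 ≤ (1 / 2 * ((W : ℝ) + 1) ^ 2 * Real.log 2) := by positivity
    have e3 : (1 / 2 * ((W : ℝ) + 1) ^ 2 * Real.log 2) * Real.log 2 ≤
        (1 / 2 * ((W : ℝ) + 1) ^ 2 * Real.log 2) * 1 := mul_le_mul_of_nonneg_left hl2'.le e2
    linarith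
  have h8 : 2 * ((W : ℝ) + 1) ^ 2 * Real.log 2 ≤ ((8 * W * (W + 1) - 2 : ℕ) : ℝ) * Real.log 2 :=
    mul_le_mul_of_nonneg_right h4 hl2.le
  linarith

lemma exp_bound_small (n : ℕ) (hn : 1 ≤ n) (h : (n : ℝ) ≤ 2 ^ 64) :
    Real.exp (Real.log n ^ 2 / 8192) ≤ 3 / 2 := by
  have hnpos : (0 : ℝ) < n := by exact_mod_cast hn
  have hlog0 : 0 ≤ Real.log n := Real.log_nonneg (by exact_mod_cast hn)
  have hl2 : 0 < Real.log 2 := Real.log_pos (by norm_num)
  have h1 : Real.log n ≤ 64 * Real.log 2 := by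
    have h2 : Real.log n ≤ Real.log ((2 : ℝ) ^ 64) := Real.log_le_log hnpos h
    rw [Real.log_pow] at h2
    push_cast at h2
    exact h2
  have h2 : Real.log n ^ 2 / 8192 ≤ 1 / 3 := by
    have h3 : Real.log n ^ 2 ≤ (64 * Real.log 2) ^ 2 := pow_le_pow_left₀ hlog0 h1 2
    have h4 : Real.log 2 ^ 2 ≤ 1 / 2 := by
      have := Real.log_two_lt_d9
      nlinarith
    nlinarith
  have h5 : Real.exp (Real.log n ^ 2 / 8192) ≤ Real.exp (1 / 3) := Real.exp_le_exp.mpr h2
  refine h5.trans ?_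
  have h6 := Real.add_one_le_exp (-(1 / 3 : ℝ))
  have h7 : Real.exp (-(1 / 3 : ℝ)) = (Real.exp (1 / 3))⁻¹ := Real.exp_neg _
  rw [h7] at h6
  have h8 : 0 < Real.exp (1 / 3 : ℝ) := Real.exp_pos _
  have h9 : (Real.exp (1 / 3 : ℝ)) * (2 / 3) ≤ 1 := by
    calc (Real.exp (1 / 3 : ℝ)) * (2 / 3) ≤ (Real.exp (1 / 3 : ℝ)) * (Real.exp (1 / 3))⁻¹ :=
          mul_le_mul_of_nonneg_left (by linarith) h8.le
      _ = 1 := mul_inv_cancel₀ h8.ne'
  linarith

/-- For every `n ≥ 1` the Schrijver number of the strong square of `G_n` is at least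
`n ^ (log n / 8192)`. -/
theorem result (n : ℕ) (hn : 1 ≤ n) : (n : ℝ) ^ (Real.log n / 8192) ≤
    schrijverNumber (strongProduct (acuteGraph n) (acuteGraph n)) := by
  have hnpos : (0 : ℝ) < n := by exact_mod_cast hn
  rw [Real.rpow_def_of_pos hnpos]
  have hexp : Real.log n * (Real.log n / 8192) = Real.log n ^ 2 / 8192 := by ring
  rw [hexp]
  by_cases hbig : 2 ^ 64 ≤ n
  · obtain ⟨W, hWdef⟩ : ∃ W, W = Nat.log 2 n / 64 := ⟨_, rfl⟩
    have hlog : 64 ≤ Nat.log 2 n := (Nat.le_log_iff_pow_le (by norm_num) (by omega)).mpr hbig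
    clear hbig
    have hW : 1 ≤ W := by omega
    have hnW : 2 ^ (64 * W) ≤ n := by
      calc 2 ^ (64 * W) ≤ 2 ^ (Nat.log 2 n) := Nat.pow_le_pow_right (by norm_num) (by omega)
        _ ≤ n := Nat.pow_log_le_self 2 (by omega)
    have hnW2 : n < 2 ^ (64 * (W + 1)) := by
      calc n < 2 ^ (Nat.log 2 n + 1) := Nat.lt_pow_succ_log_self (by norm_num) n
        _ ≤ 2 ^ (64 * (W + 1)) := Nat.pow_le_pow_right (by norm_num) (by omega)
    exact (exp_bound n W hn hW hnW2).trans (large_bound n W hW hnW)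
  · push Not at hbig
    have h : (n : ℝ) ≤ 2 ^ 64 := by exact_mod_cast hbig.le
    exact (exp_bound_small n hn h).trans (small_bound n hn)

end Pool.Agent.Results.MP_b1e97f_co.SchrijverSquare
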